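import Pool.Agent.H63.SEP.Stmts2

/-!
Project SEP, module EMX: the embedding of extensions given by a complete embedding of posets.
-/

set_option linter.unusedVariables false
set_option synthInstance.maxSize 100000

namespace SW.SEP

open SW

section
variable {M : Type} [SetStr M] [ZF M]

/-- the translation of names -/
noncomputable def emxS (P : M) (h : M → M) (a : M) : M :=
  trec (fun a g => img (sep a (fun t => E (p2 t) P ∧ t = opair (p1 t) (p2 t)))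
    (fun t => opair (app g (p1 t)) (h (p2 t)))) a

theorem emxS_df {P : M} {h : M → M} [Fn1 h] : Fn1 (fun a : M => emxS P h a) := by
  unfold emxS
  infer_instance

theorem emx_mem (hT : TRECStmt) {P : M} {h : M → M} [hh : Fn1 h] {a z : M} :
    E z (emxS P h a) ↔ ∃ c s, E (opair c s) a ∧ E s P ∧ z = opair (emxS P h c) (h s) := by
  have h1 : emxS P h a = img (sep a (fun t => E (p2 t) P ∧ t = opair (p1 t) (p2 t)))
      (fun t => opair (app (gr (tc a) (emxS P h)) (p1 t)) (h (p2 t))) :=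
    hT M (fun a g => img (sep a (fun t => E (p2 t) P ∧ t = opair (p1 t) (p2 t)))
      (fun t => opair (app g (p1 t)) (h (p2 t)))) inferInstance a
  have hc : ∀ c s, E (opair c s) a → E c (tc a) := fun c s hcs => by
    have h2 : E (opair c s) (tc a) := sub_tc a _ hcs
    have h3 : E (sing c) (opair c s) := by simp [opair, sing]
    have h4 : E (sing c) (tc a) := Trans_tc a _ h2 _ h3
    exact Trans_tc a _ h4 _ (mem_sing.2 rfl)
  have hdf : Fn1 (emxS P h) := emxS_df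
  rw [h1, mem_img' inferInstance]
  constructor
  · rintro ⟨t, ht, rfl⟩
    rw [mem_sep' inferInstance] at ht
    obtain ⟨ht, hs, he⟩ := ht
    refine ⟨p1 t, p2 t, he ▸ ht, hs, ?_⟩
    rw [app_gr hdf (hc _ (p2 t) (he ▸ ht))]
  · rintro ⟨c, s, hcs, hs, rfl⟩
    refine ⟨opair c s, (mem_sep' inferInstance).2 ⟨hcs, ?_, ?_⟩, ?_⟩
    · rw [p2_opair]; exact hs
    · rw [p1_opair, p2_opair]
    · rw [p1_opair, p2_opair, app_gr hdf (hc c s hcs)]

theorem emx_fwd (hT : TRECStmt) {F F' : FPoset M} {h e : M → M} (H : CEmb F F' h e)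
    {p a b q : M} (hab : EqF F p a b) (hq : E q F'.P) (hqp : F'.le q (h p)) :
    EqF F' q (emxS F.P h a) (emxS F.P h b) := by
  haveI := H.hdf
  haveI := H.edf
  haveI : Fn1 (fun a : M => emxS F.P h a) := emxS_df
  refine (eqF F').coind (fun q' a' b' => ∃ p a b, EqF F p a b ∧ E q' F'.P ∧ F'.le q' (h p) ∧
    a' = emxS F.P h a ∧ b' = emxS F.P h b) ?_ ?_ q _ _ ⟨p, a, b, hab, hq, hqp, rfl, rfl⟩
  · infer_instance
  · rintro q' a' b' ⟨p, a, b, hab, hq', hqp, rfl, rfl⟩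
    have hp := (eqF F).inP hab
    refine ⟨hq', ?_, ?_⟩
    · intro c' s' r' hc' hs' hr' hrq hrs
      rw [emx_mem hT] at hc'
      obtain ⟨c, s, hcs, hs, he⟩ := hc'
      rw [opair_inj] at he
      obtain ⟨rfl, rfl⟩ := he
      have h1 := H.red r' hr'
      have h2 : F.le (e r') p := H.low r' p hr' hp
        (F'.trans _ _ _ hr' hq' (H.inP p hp) hrq hqp)
      have h3 : F.le (e r') s := H.low r' s hr' hs hrs
      obtain ⟨r1, d, s1, hr1, hr1e, hds, hs1, hrs1, heq⟩ := (eqF F).left hab hcs hs h1.1 h2 h3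
      obtain ⟨t, ht, htr, hth⟩ := H.ama r' r1 hr' hr1 hr1e
      exact ⟨t, emxS F.P h d, h s1, ht, htr, (emx_mem hT).2 ⟨d, s1, hds, hs1, rfl⟩,
        H.inP s1 hs1, F'.trans _ _ _ ht (H.inP r1 hr1) (H.inP s1 hs1) hth
          (H.mono r1 s1 hr1 hs1 hrs1), r1, c, d, heq, ht, hth, rfl, rfl⟩
    · intro c' s' r' hc' hs' hr' hrq hrs
      rw [emx_mem hT] at hc'
      obtain ⟨c, s, hcs, hs, he⟩ := hc'
      rw [opair_inj] at he
      obtain ⟨rfl, rfl⟩ := he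
      have h1 := H.red r' hr'
      have h2 : F.le (e r') p := H.low r' p hr' hp
        (F'.trans _ _ _ hr' hq' (H.inP p hp) hrq hqp)
      have h3 : F.le (e r') s := H.low r' s hr' hs hrs
      obtain ⟨r1, d, s1, hr1, hr1e, hds, hs1, hrs1, heq⟩ := (eqF F).right hab hcs hs h1.1 h2 h3
      obtain ⟨t, ht, htr, hth⟩ := H.ama r' r1 hr' hr1 hr1e
      exact ⟨t, emxS F.P h d, h s1, ht, htr, (emx_mem hT).2 ⟨d, s1, hds, hs1, rfl⟩,
        H.inP s1 hs1, F'.trans _ _ _ ht (H.inP r1 hr1) (H.inP s1 hs1) hth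
          (H.mono r1 s1 hr1 hs1 hrs1), r1, d, c, heq, ht, hth, rfl, rfl⟩

theorem emx_bwd (hT : TRECStmt) {F F' : FPoset M} {h e : M → M} (H : CEmb F F' h e)
    {a b q : M} (hab : EqF F' q (emxS F.P h a) (emxS F.P h b)) : EqF F (e q) a b := by
  haveI := H.hdf
  haveI := H.edf
  haveI : Fn1 (fun a : M => emxS F.P h a) := emxS_df
  refine (eqF F).coind (fun q a b => ∃ q', q = e q' ∧
    EqF F' q' (emxS F.P h a) (emxS F.P h b)) ?_ ?_ _ _ _ ⟨q, rfl, hab⟩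
  · infer_instance
  · rintro q a b ⟨q', rfl, hab⟩
    have hq' := (eqF F').inP hab
    refine ⟨(H.red q' hq').1, ?_, ?_⟩
    · intro c s r hcs hs hr hrq hrs
      obtain ⟨t, ht, htq, htr⟩ := H.ama q' r hq' hr hrq
      have h1 : F'.le t (h s) := F'.trans _ _ _ ht (H.inP r hr) (H.inP s hs) htr
        (H.mono r s hr hs hrs)
      obtain ⟨r1, d1, s1, hr1, hrt, hd, hs1, hrs1, heq⟩ := (eqF F').left hab
        ((emx_mem hT).2 ⟨c, s, hcs, hs, rfl⟩) (H.inP s hs) ht htq h1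
      rw [emx_mem hT] at hd
      obtain ⟨d, s2, hds, hs2, he⟩ := hd
      rw [opair_inj] at he
      obtain ⟨rfl, rfl⟩ := he
      exact ⟨e r1, d, s2, (H.red r1 hr1).1, H.low r1 r hr1 hr
        (F'.trans _ _ _ hr1 ht (H.inP r hr) hrt htr), hds, hs2, H.low r1 s2 hr1 hs2 hrs1, r1,
        rfl, heq⟩
    · intro c s r hcs hs hr hrq hrs
      obtain ⟨t, ht, htq, htr⟩ := H.ama q' r hq' hr hrq
      have h1 : F'.le t (h s) := F'.trans _ _ _ ht (H.inP r hr) (H.inP s hs) htr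
        (H.mono r s hr hs hrs)
      obtain ⟨r1, d1, s1, hr1, hrt, hd, hs1, hrs1, heq⟩ := (eqF F').right hab
        ((emx_mem hT).2 ⟨c, s, hcs, hs, rfl⟩) (H.inP s hs) ht htq h1
      rw [emx_mem hT] at hd
      obtain ⟨d, s2, hds, hs2, he⟩ := hd
      rw [opair_inj] at he
      obtain ⟨rfl, rfl⟩ := he
      exact ⟨e r1, d, s2, (H.red r1 hr1).1, H.low r1 r hr1 hr
        (F'.trans _ _ _ hr1 ht (H.inP r hr) hrt htr), hds, hs2, H.low r1 s2 hr1 hs2 hrs1, r1,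
        rfl, heq⟩

theorem emx_gen {F F' : FPoset M} {h e : M → M} (H : CEmb F F' h e) {G' : M → Prop}
    (hG : Gen F' G') : Gen F (fun p => E p F.P ∧ G' (h p)) := by
  haveI := H.hdf
  haveI := H.edf
  have meet : ∀ D : M, (∀ p, E p F.P → ∃ q, E q F.P ∧ F.le q p ∧ E q D) →
      ∃ p, (E p F.P ∧ G' (h p)) ∧ E p D := by
    intro D hD
    obtain ⟨t, ht, htD⟩ := hG.meet (sep F'.P (fun t => ∃ d, E d D ∧ E d F.P ∧ F'.le t (h d)))
      (fun r hr => by
        obtain ⟨q, hq, hqe, hqD⟩ := hD (e r) (H.red r hr).1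
        obtain ⟨t, ht, htr, hth⟩ := H.ama r q hr hq hqe
        exact ⟨t, ht, htr, (mem_sep' inferInstance).2 ⟨ht, q, hqD, hq, hth⟩⟩)
    rw [mem_sep' inferInstance] at htD
    obtain ⟨-, d, hdD, hd, hle⟩ := htD
    exact ⟨d, ⟨hd, hG.up t (h d) ht (H.inP d hd) hle⟩, hdD⟩
  refine ⟨fun p hp => hp.1, ⟨F.one_mem, by rw [H.one]; exact hG.one⟩, fun p q hp hq hle =>
    ⟨hq, hG.up _ _ hp.2 (H.inP q hq) (H.mono p q hp.1 hq hle)⟩, ?_, meet⟩
  rintro p q ⟨hp, hp'⟩ ⟨hq, hq'⟩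
  obtain ⟨d, ⟨hd, hd'⟩, hdD⟩ := meet (sep F.P (fun d => (F.le d p ∧ F.le d q) ∨
    (¬ ∃ c, E c F.P ∧ F.le c d ∧ F.le c p) ∨ ¬ ∃ c, E c F.P ∧ F.le c d ∧ F.le c q)) (by
      intro x hx
      by_cases h1 : ∃ c, E c F.P ∧ F.le c x ∧ F.le c p
      · obtain ⟨c, hc, hcx, hcp⟩ := h1
        by_cases h2 : ∃ c', E c' F.P ∧ F.le c' c ∧ F.le c' q
        · obtain ⟨c', hc', hcc, hcq⟩ := h2
          exact ⟨c', hc', F.trans _ _ _ hc' hc hx hcc hcx, (mem_sep' inferInstance).2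
            ⟨hc', Or.inl ⟨F.trans _ _ _ hc' hc hp hcc hcp, hcq⟩⟩⟩
        · exact ⟨c, hc, hcx, (mem_sep' inferInstance).2 ⟨hc, Or.inr (Or.inr h2)⟩⟩
      · exact ⟨x, hx, F.refl x hx, (mem_sep' inferInstance).2 ⟨hx, Or.inr (Or.inl h1)⟩⟩)
  rw [mem_sep' inferInstance] at hdD
  rcases hdD.2 with h1 | h1 | h1
  · exact ⟨d, ⟨hd, hd'⟩, h1⟩
  · exfalso
    obtain ⟨t, ht, ht1, ht2⟩ := hG.dir _ _ hd' hp'
    have ht' := hG.sub t ht
    exact h1 ⟨e t, (H.red t ht').1, H.low t d ht' hd ht1, H.low t p ht' hp ht2⟩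
  · exfalso
    obtain ⟨t, ht, ht1, ht2⟩ := hG.dir _ _ hd' hq'
    have ht' := hG.sub t ht
    exact h1 ⟨e t, (H.red t ht').1, H.low t d ht' hd ht1, H.low t q ht' hq ht2⟩

theorem emx_chk (hT : TRECStmt) {F F' : FPoset M} {h e : M → M} (H : CEmb F F' h e) (x : M) :
    emxS F.P h (chk F x) = chk F' x := by
  haveI := H.hdf
  haveI : Fn1 (fun a : M => emxS F.P h a) := emxS_df
  refine mem_induction (C := fun x => emxS F.P h (chk F x) = chk F' x) inferInstance ?_ x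
  intro x ih
  refine SW.ext fun z => ?_
  rw [emx_mem hT, mem_chk]
  constructor
  · rintro ⟨c, s, hcs, hs, rfl⟩
    rw [mem_chk] at hcs
    obtain ⟨y, hy, he⟩ := hcs
    rw [opair_inj] at he
    obtain ⟨rfl, rfl⟩ := he
    exact ⟨y, hy, by rw [ih y hy, H.one]⟩
  · rintro ⟨y, hy, rfl⟩
    exact ⟨chk F y, F.one, (mem_chk F).2 ⟨y, hy, rfl⟩, F.one_mem, by rw [ih y hy, H.one]⟩

end

/-- EMX -/
theorem sep_emx (hT : TRECStmt) : EMXStmt := by
  intro M _ _ F F' h e H G' hG'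
  have hG := emx_gen H hG'
  refine ⟨hG, ?_⟩
  set G : M → Prop := fun p => E p F.P ∧ G' (h p) with hGdef
  haveI := H.hdf
  let j : Ext F G → Ext F' G' := Quot.lift (fun a => mk F' G' (emxS F.P h a)) (by
    rintro a b ⟨p, hp, hab⟩
    exact ((extF hG').eq_iff _ _).2 ⟨h p, hp.2, emx_fwd hT H hab (hG'.sub _ hp.2)
      (F'.refl _ (hG'.sub _ hp.2))⟩)
  have hj : ∀ a, j (mk F G a) = mk F' G' (emxS F.P h a) := fun a => rfl
  have hinj : ∀ a b, j (mk F G a) = j (mk F G b) → mk F G a = mk F G b := by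
    intro a b hab
    rw [hj, hj, (extF hG').eq_iff] at hab
    obtain ⟨q, hq, hab⟩ := hab
    have hq' := hG'.sub q hq
    have h1 := H.red q hq'
    exact ((extF hG).eq_iff _ _).2 ⟨e q, ⟨h1.1, hG'.up q _ hq (H.inP _ h1.1) h1.2⟩,
      emx_bwd hT H hab⟩
  refine ⟨j, ⟨?_, ?_, ?_⟩, ?_⟩
  · rintro ⟨a⟩ ⟨b⟩ hab
    exact hinj a b hab
  · rintro ⟨a⟩ ⟨b⟩
    show E (j (mk F G a)) (j (mk F G b)) ↔ E (mk F G a) (mk F G b)
    rw [hj b, (extF hG').mem_iff', (extF hG).mem_iff']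
    constructor
    · rintro ⟨d', s', hds, hs', heq⟩
      rw [emx_mem hT] at hds
      obtain ⟨d, s, hds, hs, he⟩ := hds
      rw [opair_inj] at he
      obtain ⟨rfl, rfl⟩ := he
      exact ⟨d, s, hds, ⟨hs, hs'⟩, hinj a d heq⟩
    · rintro ⟨d, s, hds, hs, heq⟩
      refine ⟨emxS F.P h d, h s, (emx_mem hT).2 ⟨d, s, hds, hs.1, rfl⟩, hs.2, ?_⟩
      rw [heq, hj]
  · rintro z ⟨a⟩ hz
    have hz' : E z (j (mk F G a)) := hz
    rw [hj, (extF hG').mem_iff'] at hz'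
    obtain ⟨d', s', hds, hs', rfl⟩ := hz'
    rw [emx_mem hT] at hds
    obtain ⟨d, s, hds, hs, he⟩ := hds
    rw [opair_inj] at he
    obtain ⟨rfl, rfl⟩ := he
    exact ⟨mk F G d, (hj d).symm⟩
  · intro x
    show j (mk F G (chk F x)) = mk F' G' (chk F' x)
    rw [hj, emx_chk hT H]

end SW.SEP
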