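import Pool.Agent.H63.SEP.Stmts2
import Pool.Agent.H97.MA.CTR

/-!
Project SEP, modules RLS, NCH: many subsets of `om` in the extension, the continuum hypothesis
fails.
-/

set_option linter.unusedVariables false
set_option synthInstance.maxSize 100000

namespace SW.SEP

open SW

theorem rls_temb {M : Type} [SetStr M] [ZF M] {F : FPoset M} {G : M → Prop} (hG : Gen F G) :
    TEmb (emb F G) where
  inj x y h := ((embF hG).inj x y).1 h
  mem x y := (embF hG).mem x y
  tr z x h := by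
    obtain ⟨y, _, hy⟩ := (embF hG).trans z x h
    exact ⟨y, hy⟩

/-- RLS -/
theorem sep_rls (hT : TEFStmt) (hC : CTSStmt) (hB : CBTStmt) (h5 : GB5Stmt) : RLSStmt := by
  intro M _ _ _ I K G hI hG hlab _
  have te : TEmb (emb (PF I) G) := rls_temb hG
  have tf := hT M (Ext (PF I) G) (emb (PF I) G) te
  obtain ⟨c, hc1, hc2⟩ : Cb (prod om LL : M) := (hB M).prod (hB M).om (hC M).2.1
  have hS : Fn1 (fun a : Ext (PF I) G => sep om (fun n => ∃ z, E z (Br (gg I G) (lbl emp a)) ∧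
      E (opair z n) (emb (PF I) G c))) := inferInstance
  have hP : (prod om LL : Ext (PF I) G) = emb (PF I) G (prod om LL) := by
    rw [tf.prod, tf.om, tf.LL]
  have key : ∀ k k' : Ext (PF I) G,
      sep om (fun n => ∃ z, E z (Br (gg I G) (lbl emp k)) ∧ E (opair z n) (emb (PF I) G c)) =
      sep om (fun n => ∃ z, E z (Br (gg I G) (lbl emp k')) ∧ E (opair z n) (emb (PF I) G c)) →
      Sub (Br (gg I G) (lbl emp k)) (Br (gg I G) (lbl emp k')) := by
    intro k k' h z hz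
    have hz1 : E z (prod om LL) := by
      unfold Br at hz
      rw [mem_sep' inferInstance] at hz
      exact hz.1
    rw [hP] at hz1
    obtain ⟨z0, hz0, rfl⟩ := tf.mem'.1 hz1
    obtain ⟨n, hn, hzn⟩ := hc1 z0 hz0
    have h1 : E (emb (PF I) G n) (sep om (fun n => ∃ z, E z (Br (gg I G) (lbl emp k)) ∧
        E (opair z n) (emb (PF I) G c))) := by
      rw [mem_sep' inferInstance]
      refine ⟨?_, _, hz, ?_⟩
      · rw [← tf.om]; exact (te.mem _ _).2 hn
      · rw [← tf.opair]; exact (te.mem _ _).2 hzn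
    rw [h, mem_sep' inferInstance] at h1
    obtain ⟨h1, z', hz', hzn'⟩ := h1
    have hz2 : E z' (prod om LL) := by
      unfold Br at hz'
      rw [mem_sep' inferInstance] at hz'
      exact hz'.1
    rw [hP] at hz2
    obtain ⟨z1, hz1', rfl⟩ := tf.mem'.1 hz2
    rw [← tf.opair, te.mem] at hzn'
    rw [hc2 z0 z1 n hz0 hz1' hn hzn hzn']
    exact hz'
  refine ⟨gr (emb (PF I) G K) (fun a => sep om (fun n => ∃ z, E z (Br (gg I G) (lbl emp a)) ∧
      E (opair z n) (emb (PF I) G c))), fun a ha => ⟨_, fun z hz => ?_,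
      (opair_mem_gr hS).2 ⟨ha, rfl⟩⟩, ?_⟩
  · rw [mem_sep' inferInstance] at hz
    exact hz.1
  · intro a a' x ha ha' hx hx'
    rw [opair_mem_gr hS] at hx hx'
    obtain ⟨k, hk, rfl⟩ := tf.mem'.1 ha
    obtain ⟨k', hk', rfl⟩ := tf.mem'.1 ha'
    by_contra hne
    have hl : ∀ k, emb (PF I) G (lbl emp k) = lbl emp (emb (PF I) G k) := fun k => by
      unfold lbl
      rw [tf.opair, tf.two, tf.opair, tf.emp]
    refine h5 M I (lbl emp k) (lbl emp k') G hI hG (hlab k hk) (hlab k' hk')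
      (Or.inl ⟨emp, k, rfl⟩) (Or.inl ⟨emp, k', rfl⟩) ?_ ?_
    · intro h
      unfold lbl at h
      rw [opair_inj, opair_inj] at h
      exact hne (by rw [h.2.2])
    · rw [hl, hl]
      have h1 := hx.2.symm.trans hx'.2
      refine SW.ext fun z => ⟨key _ _ h1 z, key _ _ h1.symm z⟩

theorem nch_w {M : Type} [SetStr M] [ZF M] {w : M} (h : IsOmegaOne w) : IsW w :=
  ⟨⟨h.1.1, h.1.2⟩, fun hc => h.2.1 ((ma_ctr M w).2 hc), fun a ha => (ma_ctr M a).1 (h.2.2 a ha)⟩

/-- NCH -/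
theorem sep_nch (hT : TEFStmt) (hW : WXXStmt) (hN : NIJStmt) (hR : RLSStmt) : NCHStmt := by
  intro M _ _ _ I K w G hI hG hlab hw hK _
  have te : TEmb (emb (PF I) G) := rls_temb hG
  have tf := hT M (Ext (PF I) G) (emb (PF I) G) te
  have hw' := hW M I w G hI hG hw
  obtain ⟨g, hg1, hg2⟩ := hR M I K G hI hG hlab
  constructor
  · rintro ⟨w1, o, f, hw1, ho, hf1, hf2⟩
    obtain rfl := ctr_omega.1 ho
    obtain rfl : w1 = emb (PF I) G w := by
      have h := nch_w hw1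
      rcases h.1.tri hw'.1 with h1 | h1 | h1
      · exact absurd (hw'.2.2 _ h1) h.2.1
      · exact h1
      · exact absurd (h.2.2 _ h1) hw'.2.1
    refine hN M I w G hI hG hw ⟨sep (prod (emb (PF I) G (pow (prod w om))) (emb (PF I) G w))
      (fun t => ∃ a b x, t = opair a b ∧ E (opair a x) g ∧ Sub x om ∧ E (opair x b) f),
      fun a ha => ?_, fun a a' b ha ha' h h' => ?_⟩
    · have haK : E a (emb (PF I) G K) := (tf.sub.2 hK) a ha
      obtain ⟨x, hx, hax⟩ := hg1 a haK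
      obtain ⟨b, hb, hxb⟩ := hf1 x hx
      refine ⟨b, hb, ?_⟩
      rw [mem_sep' inferInstance, mem_prod]
      exact ⟨⟨ha, hb⟩, a, b, x, rfl, hax, hx, pairIn_iff.1 hxb⟩
    · rw [mem_sep' inferInstance] at h h'
      obtain ⟨-, a1, b1, x, he, hax, hx, hxb⟩ := h
      obtain ⟨-, a2, b2, x', he', hax', hx', hxb'⟩ := h'
      rw [opair_inj] at he he'
      obtain ⟨rfl, rfl⟩ := he
      obtain ⟨rfl, rfl⟩ := he'
      obtain rfl := hf2 x x' _ hx hx' (pairIn_iff.2 hxb) (pairIn_iff.2 hxb')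
      exact hg2 _ _ x ((tf.sub.2 hK) _ ha) ((tf.sub.2 hK) _ ha') hax hax'
  · intro K0 hK0
    refine ⟨om, g, ctr_omega.2 rfl, fun a ha => ?_, fun a a' x ha ha' h h' => ?_⟩
    · obtain ⟨x, hx, hax⟩ := hg1 a (tf.sub.2 hK0 a ha)
      exact ⟨x, hx, pairIn_iff.2 hax⟩
    · exact hg2 a a' x (tf.sub.2 hK0 a ha) (tf.sub.2 hK0 a' ha') (pairIn_iff.1 h)
        (pairIn_iff.1 h')

end SW.SEP
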