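import Pool.Agent.H63.SEP.Stmts3

/-!
Project SEP, module SPN: the separation property from `TSP`.
-/

set_option linter.unusedVariables false
set_option synthInstance.maxSize 100000

namespace SW.SEP

open SW

theorem spn_point {N : Type} [SetStr N] [ZF N] (o x : N) : IsPoint o x ↔ Fnc o o x := by
  unfold IsPoint IsFunction Fnc
  constructor
  · rintro ⟨h1, h2⟩
    refine ⟨fun z hz => ?_, fun a ha => ?_, fun a y y' hy hy' => ?_⟩
    · obtain ⟨a, b, ha, hb, h⟩ := h1 z hz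
      exact ⟨a, b, ha, hb, isOP_iff.1 h⟩
    · obtain ⟨y, hy, -⟩ := h2 a ha
      exact ⟨y, pairIn_iff.1 hy⟩
    · obtain ⟨a', b', ha, hb, h⟩ := h1 _ hy
      have h := isOP_iff.1 h
      rw [opair_inj] at h
      obtain ⟨rfl, rfl⟩ := h
      obtain ⟨y0, hy0, hu⟩ := h2 a ha
      rw [hu y (pairIn_iff.2 hy), hu y' (pairIn_iff.2 hy')]
  · rintro ⟨h1, h2, h3⟩
    refine ⟨fun z hz => ?_, fun a ha => ?_⟩
    · obtain ⟨a, b, ha, hb, h⟩ := h1 z hz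
      exact ⟨a, b, ha, hb, isOP_iff.2 h⟩
    · obtain ⟨y, hy⟩ := h2 a ha
      exact ⟨y, pairIn_iff.2 hy, fun y' hy' => h3 a y' y (pairIn_iff.1 hy') hy⟩

/-- SPN -/
theorem sep_spn (hD : DBNStmt) (hB : BDDStmt) (hF : F13Stmt) (hT : TREStmt) (hO : OMQStmt) :
    SPNStmt := by
  intro N _ _ g Z hZ H o A B ho hA hB' hAB
  obtain rfl := (hO N o).2.1.1 ho
  obtain ⟨T0, h0⟩ := hT N A hA
  obtain ⟨T1, h1⟩ := hT N B hB'
  obtain ⟨b, hb⟩ := H T0 T1 fun x hx => hAB x ⟨(h0 x).2 hx.1, (h1 x).2 hx.2⟩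
  have hdf : ∀ i : N, Cl (fun x : N => DDn g Z b i x) := fun i => by
    have := DDn_df (M := N)
    exact Df.comp5 (R := fun g Z b i x : N => DDn g Z b i x) inferInstance inferInstance
      inferInstance inferInstance inferInstance inferInstance
  have key : ∀ i : N, ∃ C : N, IsSigma13 om C ∧ ∀ x, E x C ↔ Fnc om om x ∧ DDn g Z b i x := by
    intro i
    obtain ⟨R, hR, h⟩ := hD N g Z b i hZ
    have := hdf i
    have hC : ∀ x, E x (sep BS (fun x : N => DDn g Z b i x)) ↔ Fnc om om x ∧ DDn g Z b i x :=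
      fun x => by rw [mem_sep' (hdf i), mem_BS]
    refine ⟨sep BS (fun x : N => DDn g Z b i x), hF N R _ (hB N R hR).1 fun x => ?_, hC⟩
    rw [hC]
    exact ⟨fun hx => ⟨hx.1, (h x hx.1).1 hx.2⟩, fun hx => ⟨hx.1, (h x hx.1).2 hx.2⟩⟩
  obtain ⟨C, hC, hC'⟩ := key emp
  obtain ⟨D, hD1, hD'⟩ := key one
  refine ⟨C, ⟨hC, D, hD1, fun x hx => ?_⟩, fun x hx => ?_, fun x hx => ?_⟩
  · have hx := (spn_point _ _).1 hx
    obtain ⟨h2, h3, -, -⟩ := hb x hx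
    rw [hD', hC']
    constructor
    · rintro ⟨-, h4⟩ ⟨-, h5⟩
      exact h3 ⟨h5, h4⟩
    · intro h4
      exact ⟨hx, h2.resolve_left fun h => h4 ⟨hx, h⟩⟩
  · have hx' := (spn_point _ _).1 (hA.1 x hx)
    obtain ⟨-, -, h4, -⟩ := hb x hx'
    exact (hC' x).2 ⟨hx', h4 ((h0 x).1 hx)⟩
  · obtain ⟨hx1, hx2⟩ := hx
    have hx' := (spn_point _ _).1 (hB'.1 x hx1)
    obtain ⟨-, h3, -, h5⟩ := hb x hx'
    exact h3 ⟨((hC' x).1 hx2).2, h5 ((h1 x).1 hx1)⟩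

end SW.SEP
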