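import Pool.Agent.H63.SEP.Stmts2

/-!
Project SEP, modules VLX, CEJ, CEI.
-/

set_option linter.unusedVariables false
set_option synthInstance.maxSize 100000

namespace SW.SEP

open SW

/-- VLX -/
theorem sep_vlx : VLXStmt := by
  intro M _ _ J X τ G hτ K hG z
  rw [(extF hG).mem_iff']
  constructor
  · rintro ⟨d, s, h, hs, rfl⟩
    unfold vl at h
    rw [mem_img' inferInstance] at h
    obtain ⟨t, ht, h⟩ := h
    obtain ⟨q, a, hq, ha, rfl⟩ := hτ.2 t ht
    rw [p1_opair, p2_opair, opair_inj] at h
    obtain ⟨rfl, rfl⟩ := h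
    exact ⟨_, _, ht, hs, rfl⟩
  · rintro ⟨q, a, h, hq, rfl⟩
    refine ⟨chk (PF K) a, q, ?_, hq, rfl⟩
    unfold vl
    rw [mem_img' inferInstance]
    exact ⟨opair q a, h, by rw [p1_opair, p2_opair]; rfl⟩

/-- CEJ -/
theorem sep_cej (hP : PSFStmt) : CEJStmt := by
  intro M _ _ J K hJ hK hJK
  have f := hP M
  exact
  { hdf := inferInstance
    edf := inferInstance
    inP := fun p hp => f.mono hJK hp
    mono := fun p q _ _ h => h
    one := rfl
    red := fun r hr => ⟨f.rst hK hJ hr, f.rsub⟩
    low := fun r p hr hp h => by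
      have h1 : rJ J p = p := f.rself hp (Sub.refl J)
      show Sub p (rJ J r)
      rw [← h1]
      exact f.rmono h
    ama := fun r s hr hs h => by
      have h1 : bun K J = K := SW.ext fun z => by
        rw [mem_bun]
        exact ⟨fun h => h.elim id (hJK z), Or.inl⟩
      refine ⟨bun r s, ?_, fun z hz => mem_bun.2 (Or.inl hz), fun z hz => mem_bun.2 (Or.inr hz)⟩
      have h2 := f.ama hK hJ hr hs h
      rw [h1] at h2
      exact h2 }

/-- CEI -/
theorem sep_cei (hI : ISFStmt) : CEIStmt := by
  intro M _ _ g J K hJ hK hg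
  have f := hI M g J K hJ hK hg
  obtain ⟨g', hg', -, -, h1, h2, -⟩ := f.inv
  have f' := hI M g' K J hK hJ hg'
  refine ⟨g', hg', ?_⟩
  exact
  { hdf := inferInstance
    edf := inferInstance
    inP := fun p hp => f.act_in hp
    mono := fun p q hp hq h => (f.act_sub hq hp).2 h
    one := f.act_emp
    red := fun r hr => ⟨f'.act_in hr, by
      show Sub (act g (act g' r)) r
      rw [h2 r hr]
      exact Sub.refl r⟩
    low := fun r p hr hp h => by
      have h3 : Sub (act g p) r := h
      have h4 := (f'.act_sub (f.act_in hp) hr).2 h3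
      rw [h1 p hp] at h4
      exact h4
    ama := fun r s hr hs h => by
      refine ⟨act g s, f.act_in hs, ?_, Sub.refl _⟩
      have h3 : Sub (act g' r) s := h
      have h4 := (f.act_sub (f'.act_in hr) hs).2 h3
      rw [h2 r hr] at h4
      exact h4 }

end SW.SEP
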