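import Pool.Agent.H63.SEP.Stmts2

/-!
Project SEP, module ORX: the ordinals of an extension are those of the model.
-/

set_option linter.unusedVariables false
set_option synthInstance.maxSize 100000

namespace SW.SEP

open SW

theorem orx_chk {M : Type} [SetStr M] [ZF M] (F : FPoset M) (a : M) :
    ∀ b p, EqF F p (chk F a) (chk F b) → a = b := by
  refine mem_induction (C := fun a : M => ∀ b p, EqF F p (chk F a) (chk F b) → a = b)
    inferInstance ?_ a
  intro a IH b p hab
  have hp := (eqF F).inP hab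
  refine SW.ext fun z => ⟨fun hz => ?_, fun hz => ?_⟩
  · obtain ⟨r, d, s, hr, hrp, hds, hs, hrs, he⟩ := (eqF F).left hab
      ((mem_chk F).2 ⟨z, hz, rfl⟩) F.one_mem hp (F.refl p hp) (F.le_one p hp)
    obtain ⟨y, hy, h⟩ := (mem_chk F).1 hds
    rw [opair_inj] at h
    obtain ⟨rfl, rfl⟩ := h
    rw [IH z hz y r he]
    exact hy
  · obtain ⟨r, d, s, hr, hrp, hds, hs, hrs, he⟩ := (eqF F).right hab
      ((mem_chk F).2 ⟨z, hz, rfl⟩) F.one_mem hp (F.refl p hp) (F.le_one p hp)
    obtain ⟨y, hy, h⟩ := (mem_chk F).1 hds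
    rw [opair_inj] at h
    obtain ⟨rfl, rfl⟩ := h
    rw [← IH y hy z r he]
    exact hy

/-- ORX -/
theorem sep_orx : ORXStmt := by
  intro M _ _ F G hG _ b hb
  by_contra hno
  push Not at hno
  have h1 : ∀ a, Ord a → E (emb F G a) b := by
    intro a ha
    rcases Ord.tri ((traF hG).ord a ha) hb with h | h | h
    · exact h
    · exact absurd h.symm (hno a ha)
    · obtain ⟨x, hx, he⟩ := (embF hG).trans b a h
      exact absurd he (hno x (ha.mem hx))
  obtain ⟨d, rfl⟩ : ∃ d, mk F G d = b := Quot.exists_rep b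
  obtain ⟨a, ha, hna⟩ := exists_ord_not_mem (img (prod (img d (fun t : M => p1 t)) F.P)
    (fun t : M => the (fun a : M => Ord a ∧ EqF F (p2 t) (chk F a) (p1 t))))
  apply hna
  obtain ⟨c, s, hcs, hs, he⟩ := ((extF hG).mem_iff' _ _).1 (h1 a ha)
  obtain ⟨p, hp, hpe⟩ := ((extF hG).eq_iff (chk F a) c).1 he
  rw [mem_img' inferInstance]
  refine ⟨opair c p, ?_, ?_⟩
  · rw [mem_prod']
    refine ⟨c, p, ?_, hG.sub p hp, rfl⟩
    rw [mem_img' inferInstance]
    exact ⟨_, hcs, (p1_opair c s).symm⟩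
  · refine (the_eq ?_ ?_).symm
    · rw [p1_opair, p2_opair]
      exact ⟨ha, hpe⟩
    · intro z hz
      rw [p1_opair, p2_opair] at hz
      exact orx_chk F z a p ((eqF F).trans hz.2 ((eqF F).symm hpe))

end SW.SEP
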